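import Pool.Agent.H743.JL.StmD

/-!
# JL-PT: patterns
-/

set_option autoImplicit false
set_option linter.all false

open scoped Classical

namespace Pool.Agent.H307.JLPT

open Finset
open Pool.Agent.H743.JL
open Pool.Agent.Y703.CQ (c2)
open Pool.Agent.H743.X17 (Sys Rt)
open Pool.Agent.N855.GF.Lc17 (Lc Loc)
open Pool.Agent.N919.BS (NN NS HG)

theorem NN_congr {P P' : ℤ → Prop} (h : ∀ d, P d ↔ P' d) (s : ℤ) (k r Y : ℕ) : NN P s k r Y = NN P' s k r Y := by
  have : P = P' := funext fun d => propext (h d)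
  rw [this]

theorem HG_congr {P G G' : ℤ → Prop} {c c' : ℝ} (h : HG P G c) (hG : ∀ d, P d → (G d ↔ G' d)) (hc : c = c') :
    HG P G' c' := by
  subst hc
  intro s k r hs hk hr ε hε
  obtain ⟨Y₀, hY⟩ := h s k r hs hk hr ε hε
  refine ⟨Y₀, fun Y hY' => ?_⟩
  rw [NN_congr (P := fun d => P d ∧ G' d) (P' := fun d => P d ∧ G d) (fun d =>
    ⟨fun ⟨a, b⟩ => ⟨a, (hG d a).2 b⟩, fun ⟨a, b⟩ => ⟨a, (hG d a).1 b⟩⟩)]
  exact hY Y hY'

theorem NN_add {P₁ P₂ P₃ : ℤ → Prop} (h1 : ∀ d, P₁ d ↔ P₂ d ∨ P₃ d) (h2 : ∀ d, P₂ d → ¬ P₃ d)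
    (s : ℤ) (k r Y : ℕ) : NN P₁ s k r Y = NN P₂ s k r Y + NN P₃ s k r Y := by
  unfold NN
  rw [← Finset.card_union_of_disjoint]
  · congr 1
    ext M
    simp only [mem_filter, mem_union, mem_Icc]
    constructor
    · rintro ⟨a, b, c, d⟩
      rcases (h1 _).1 d with h | h
      · left; exact ⟨a, b, c, h⟩
      · right; exact ⟨a, b, c, h⟩
    · rintro (⟨a, b, c, d⟩ | ⟨a, b, c, d⟩)
      · exact ⟨a, b, c, (h1 _).2 (Or.inl d)⟩
      · exact ⟨a, b, c, (h1 _).2 (Or.inr d)⟩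
  · rw [Finset.disjoint_left]
    intro M hM hM'
    rw [mem_filter] at hM hM'
    exact h2 _ hM.2.2.2 hM'.2.2.2

theorem NN_sub {P G₁ G₂ G : ℤ → Prop} (h1 : ∀ d, P d → (G d ↔ G₁ d ∧ ¬ G₂ d)) (h2 : ∀ d, P d → G₂ d → G₁ d)
    (s : ℤ) (k r Y : ℕ) : NN (fun d => P d ∧ G₁ d) s k r Y =
      NN (fun d => P d ∧ G d) s k r Y + NN (fun d => P d ∧ G₂ d) s k r Y := by
  refine NN_add (fun z => ?_) (fun z => ?_) s k r Y
  · constructor
    · rintro ⟨d, e⟩
      by_cases h : G₂ z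
      · right; exact ⟨d, h⟩
      · left; exact ⟨d, (h1 _ d).2 ⟨e, h⟩⟩
    · rintro (⟨d, e⟩ | ⟨d, e⟩)
      · exact ⟨d, ((h1 _ d).1 e).1⟩
      · exact ⟨d, h2 _ d e⟩
  · rintro ⟨a, b⟩ ⟨_, c⟩
    exact ((h1 _ a).1 b).2 c

theorem HG_sub {P G₁ G₂ G : ℤ → Prop} {c₁ c₂ : ℝ} (hG₁ : HG P G₁ c₁) (hG₂ : HG P G₂ c₂)
    (h1 : ∀ d, P d → (G d ↔ G₁ d ∧ ¬ G₂ d)) (h2 : ∀ d, P d → G₂ d → G₁ d) : HG P G (c₁ - c₂) := by
  intro s k r hs hk hr ε hε
  obtain ⟨Y₁, hY₁⟩ := hG₁ s k r hs hk hr (ε / 2) (half_pos hε)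
  obtain ⟨Y₂, hY₂⟩ := hG₂ s k r hs hk hr (ε / 2) (half_pos hε)
  refine ⟨max Y₁ Y₂, fun Y hY => ?_⟩
  have q1 := hY₁ Y ((le_max_left _ _).trans hY)
  have q2 := hY₂ Y ((le_max_right _ _).trans hY)
  have e := NN_sub h1 h2 s k r Y
  have e' : (NN (fun d => P d ∧ G₁ d) s k r Y : ℝ) =
      NN (fun d => P d ∧ G d) s k r Y + NN (fun d => P d ∧ G₂ d) s k r Y := by exact_mod_cast e
  rw [abs_le] at q1 q2 ⊢
  constructor
  · nlinarith [q1.1, q2.2]
  · nlinarith [q1.2, q2.1]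

/-- a pattern -/
def Pt (A B : Finset ℤ) (d : ℤ) : Prop := (∀ t ∈ A, Sys (tw t d)) ∧ ∀ t ∈ B, ¬ Sys (tw t d)

theorem base (h : S_HJ) (A : Finset ℤ) (m : ℕ) (Q : ℤ → Prop) (hm : 136 ∣ m) (hm0 : 0 < m)
    (hA : ∀ t ∈ A, Squarefree t ∧ t ∣ m) (hQ : Lc m Q)
    (hR : ∀ d, Squarefree d → Q d → ∀ t ∈ A, Rt (tw t d)) : HG Q (Pt A ∅) (c2 ^ A.card) := by
  have h1 := h A.card (fun i => (A.equivFin.symm i : ℤ)) m Q hm hm0
    (fun i => hA _ (A.equivFin.symm i).2)
    (fun i j hij => A.equivFin.symm.injective (Subtype.ext hij)) hQ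
    (fun d hd hQd i => hR d hd hQd _ (A.equivFin.symm i).2)
  refine HG_congr h1 (fun d _ => ?_) rfl
  constructor
  · intro h2
    refine ⟨fun t ht => ?_, fun t ht => absurd ht (Finset.notMem_empty t)⟩
    have h3 := h2 (A.equivFin ⟨t, ht⟩)
    simpa using h3
  · intro h2 i
    exact h2.1 _ (A.equivFin.symm i).2

theorem t_PT (h : S_HJ) : S_PT := by
  intro T m Q hm hm0 hT hQ hR
  have key : ∀ B : Finset ℤ, B ⊆ T → ∀ A : Finset ℤ, A ⊆ T → Disjoint A B →
      HG Q (Pt A B) (c2 ^ A.card * (1 - c2) ^ B.card) := by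
    intro B
    induction B using Finset.induction_on with
    | empty =>
      intro _ A hA _
      refine HG_congr (base h A m Q hm hm0 (fun t ht => hT t (hA ht)) hQ
        (fun d hd hQd t ht => hR d hd hQd t (hA ht))) (fun d _ => Iff.rfl) ?_
      simp
    | insert b B hb ih =>
      intro hB A hA hAB
      have hbT : b ∈ T := hB (Finset.mem_insert_self _ _)
      have hBT : B ⊆ T := fun x hx => hB (Finset.mem_insert_of_mem hx)
      have hbA : b ∉ A := fun hx => Finset.disjoint_left.1 hAB hx (Finset.mem_insert_self _ _)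
      have hd1 : Disjoint A B := Finset.disjoint_left.2 fun x hx hx' =>
        Finset.disjoint_left.1 hAB hx (Finset.mem_insert_of_mem hx')
      have hd2 : Disjoint (insert b A) B := by
        rw [Finset.disjoint_left]
        intro x hx hx'
        rcases Finset.mem_insert.1 hx with rfl | hx
        · exact hb hx'
        · exact Finset.disjoint_left.1 hd1 hx hx'
      have i1 := ih hBT A hA hd1
      have i2 := ih hBT (insert b A) (Finset.insert_subset hbT hA) hd2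
      refine HG_congr (HG_sub (G := Pt A (insert b B)) i1 i2 (fun d _ => ?_) (fun d _ => ?_))
        (fun d _ => Iff.rfl) ?_
      · unfold Pt
        constructor
        · rintro ⟨a1, a2⟩
          exact ⟨⟨a1, fun t ht => a2 t (Finset.mem_insert_of_mem ht)⟩, fun ⟨a3, _⟩ =>
            a2 b (Finset.mem_insert_self _ _) (a3 b (Finset.mem_insert_self _ _))⟩
        · rintro ⟨⟨a1, a2⟩, a3⟩
          refine ⟨a1, fun t ht => ?_⟩
          rcases Finset.mem_insert.1 ht with rfl | ht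
          · intro h4
            refine a3 ⟨fun t' ht' => ?_, a2⟩
            rcases Finset.mem_insert.1 ht' with rfl | ht'
            · exact h4
            · exact a1 t' ht'
          · exact a2 t ht
      · rintro ⟨a1, a2⟩
        exact ⟨fun t ht => a1 t (Finset.mem_insert_of_mem ht), a2⟩
      · rw [Finset.card_insert_of_notMem hbA, Finset.card_insert_of_notMem hb]
        ring
  intro A hA
  refine HG_congr (key (T \ A) Finset.sdiff_subset A hA Finset.disjoint_sdiff) (fun d _ => ?_) rfl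
  unfold Pt
  constructor
  · rintro ⟨a1, a2⟩ t ht
    constructor
    · intro h1
      by_contra h2
      exact a2 t (Finset.mem_sdiff.2 ⟨ht, h2⟩) h1
    · exact a1 t
  · intro h1
    refine ⟨fun t ht => (h1 t (hA ht)).2 ht, fun t ht h2 => ?_⟩
    rw [Finset.mem_sdiff] at ht
    exact ht.2 ((h1 t ht.1).1 h2)

end Pool.Agent.H307.JLPT
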